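import Pool.Agent.Q182.FkMain

/-!
# Groups acting on trees with a homomorphism which has finite kernels on the edge stabilizers

`C` is any class of groups with the closure properties `ClosedA C`: the usual closure properties
`ClosedE C` and closure under acylindrical actions on trees. They are known for the class of the
groups which satisfy the Farrell–Jones conjecture with coefficients and finite wreath products, in
algebraic K-theory of spaces as well as for group rings (acylindrical actions: Knopf, and Bunke,
Kasprowski, Winges for general coefficients).

The theorem below says that a group `G` acting on a tree with vertex stabilizers in `C` is in `C`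
as soon as it has a homomorphism to a group in `C` which has finite kernel on each edge stabilizer.
The orders of these kernels can be unbounded, and the kernel of the homomorphism on the vertex
stabilizers is arbitrary. For instance it suffices that the edge stabilizers meet the commutator
subgroup of `G` in finite groups.

The case of homomorphisms which are injective on the edge stabilizers is our
`MP_2a0850_gt.EdgeInjectiveTrees`. Its proof does not apply here: now the kernel of the homomorphism
is an arbitrary group acting on a tree with finite edge stabilizers, and extensions of such groups by
infinite cyclic groups have to be treated. They act on the tree with virtually cyclic edge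
stabilizers which are balanced, so that our `MP_5d3e93_al.CyclicEdges` applies to them.
-/

set_option autoImplicit false

namespace Pool.Agent.Results.MP_2a547c_gt.FiniteKernelEdges

open Q182.Cyl (ClosedA)

/-- Let `C` be a class of groups with the closure properties `ClosedA C`. Let `G` be a group acting
without inversions on a tree so that all vertex stabilizers are in `C`. Suppose that there is a
homomorphism `ρ` from `G` to a group `Q` in `C` whose restriction to the stabilizer of each edge has
a finite kernel. Then `G` is in `C`. -/
theorem result (C : ∀ (G : Type) [Group G], Prop) (hC : ClosedA C) (G Q V : Type) [Group G]
    [Group Q] [MulAction G V] (T : SimpleGraph V) (hT : T.IsTree)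
    (hadj : ∀ (g : G) (v w : V), T.Adj v w → T.Adj (g • v) (g • w))
    (hinv : ∀ (g : G) (v w : V), T.Adj v w → ¬ (g • v = w ∧ g • w = v))
    (hst : ∀ v : V, C (MulAction.stabilizer G v)) (ρ : G →* Q) (hQ : C Q)
    (hfin : ∀ v w : V, T.Adj v w → {g : G | g • v = v ∧ g • w = w ∧ ρ g = 1}.Finite) : C G :=
  Q182.Fk.main hC ρ hQ ⟨hT, hadj, hinv⟩ hfin hst

end Pool.Agent.Results.MP_2a547c_gt.FiniteKernelEdges
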