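import Pool.Agent.Q182.TrTree

/-!
# Adding free letters: normal flags of free factors, and automorphisms preserving hierarchies

`ClosedE C` lists closure properties of the class of the groups which satisfy the Farrell–Jones
conjecture for A-theory with coefficients and finite wreath products. `cj g P` is the conjugate
`g P g⁻¹` of a subgroup, and `Holo A` is the holomorph `A ⋊ Aut A`.

`LT` is the type of the finite trees with a nontrivial group at each leaf, whose other vertices are of
two kinds: `node l r` has two branches, and `letter t` has one branch. `t.grp` is the free product of
the groups at the leaves and of an infinite cyclic group for each vertex with one branch: the group of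
`node l r` is the free product of the groups of `l` and `r`, and the group of `letter t` is the free
product of the group of `t` and an infinite cyclic group. `t.factors` is the set of the free factors
which belong to the vertices of `t` (the cyclic free factors are not among them). `LAut t` is the group
of the automorphisms of `t.grp` which map each of these free factors onto a conjugate of itself (with a
conjugating element which may depend on the factor). `t.Big` says that `t` is not just a leaf.

For `letter (letter (... (leaf A)))` with `n` letters this is the group of the automorphisms of the
free product of `A` and a free group on `x₁, ..., xₙ` which preserve the conjugacy classes of all the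
subgroups generated by `A` and `x₁, ..., xₖ` (triangular automorphisms). They map the letter `xₖ` to
`u xₖ v` or `u xₖ⁻¹ v` up to conjugation, with arbitrary `u, v` in the previous subgroup.

Outline of the proof. Let `N`, the free product of `A` and `⟨x⟩`, be normal in `Γ`, where every
conjugate of `A` in `Γ` is a conjugate in `N`. A computation with reduced words shows that an element
`y` such that `A` and `y` generate `N` is in `A x A` or in `A x⁻¹ A`. So up to finite index `Γ` is the
product of `N` and of the group `E` of the elements which normalize `A` and fix the coset `x A`; and
`N ⋊ E` is an HNN extension of `A ⋊ E`, which is in the normalizer of `A`. It acts on the tree of this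
HNN extension with a homomorphism to `E` which is injective on the edge stabilizers, and the theorem on
such actions applies. The flags are treated by induction with the groups which normalize the
higher members. The normalizer of `A` in the group of automorphisms for a letter is, up to
index two, embedded in the square of the semidirect product of `A` and the group of automorphisms of
`A`; so the induction over a tree works with these semidirect products.
-/

set_option autoImplicit false

namespace Pool.Agent.Results.MP_2a547c_gt.FreeLetters

open Monoid
open Q171.NF (cj)
open Q171.OF (Holo)
open Q182.Tr (LT LAut)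
open Pool.Agent.Y110.FJ (ClosedE)

/-- Let `C` be a class of groups with the closure properties `ClosedE C`.

(1) Let `A 0, ..., A n` be subgroups of a group `Γ` and `x i` elements such that for `i < n` the
subgroup `A (i + 1)` is the free product of `A i` and the infinite cyclic group generated by `x i`.
Let `A 0` be nontrivial and `A n` normal in `Γ`, and suppose that for `i < n` every element of `Γ`
which normalizes `A (i + 1), ..., A n` conjugates `A i` to a conjugate of `A i` by an element of
`A (i + 1)`. Then `Γ` is in `C` if and only if the intersection of the normalizers of
`A 0, ..., A n` is in `C`.

(2) Let `t` be a finite tree as above which is not a leaf. The group of the automorphisms of `t.grp`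
which map each of the free factors of the tree onto a conjugate of itself is in `C` if and only if the
holomorphs of the groups at the leaves are in `C`. -/
theorem result (C : ∀ (G : Type) [Group G], Prop) (hC : ClosedE C) :
    (∀ (Γ : Type) [Group Γ] (n : ℕ) (A : ℕ → Subgroup Γ) (x : ℕ → Γ), A 0 ≠ ⊥ → (A n).Normal →
      (∀ i < n, Function.Injective (Coprod.lift (A i).subtype (zpowersHom Γ (x i)))) →
      (∀ i < n, A i ⊔ Subgroup.zpowers (x i) = A (i + 1)) →
      (∀ i < n, ∀ γ : Γ, (∀ j, i < j → j ≤ n → cj γ (A j) = A j) →
        ∃ m ∈ A (i + 1), cj γ (A i) = cj m (A i)) →
      (C Γ ↔ C (⨅ j ≤ n, Subgroup.normalizer (A j : Set Γ) : Subgroup Γ))) ∧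
    (∀ t : LT, t.Big → (C (LAut t) ↔ ∀ A ∈ t.leaves, C (Holo A.El))) := by
  refine ⟨?_, fun t ht => Q182.Tr.main_tree hC t ht⟩
  intro Γ _ n A x h0 hn hinj hran hcl
  have h1 := Q182.Tr.main_flag hC (A := A) (x := x) (n := n) h0 hn hinj
    (fun i hi => Q182.Tr.io_range.trans (hran i hi)) (by
      intro i hi γ hγ
      obtain ⟨m, hm, h⟩ := hcl i hi γ hγ
      refine ⟨m⁻¹, (A (i + 1)).inv_mem hm, ?_⟩
      rw [Q171.NF.cj_mul, h, ← Q171.NF.cj_mul, inv_mul_cancel, Q171.NF.cj_one])
  have h2 : Q182.Tr.DD A n 0 = (⨅ j ≤ n, Subgroup.normalizer (A j : Set Γ) : Subgroup Γ) := by
    ext γ
    rw [Q182.Tr.mem_DD]
    simp only [Subgroup.mem_iInf, Q171.NF.mem_normalizer_iff_cj]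
    exact ⟨fun h j hj => h j (Nat.zero_le _) hj, fun h j _ hj => h j hj⟩
  rw [h1, h2]

end Pool.Agent.Results.MP_2a547c_gt.FreeLetters
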