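import Pool.Agent.Q171.HI.Tree

/-!
# Automorphisms which preserve a hierarchy of free factors

`ClosedE C` lists closure properties of the class of the groups which satisfy the Farrell–Jones
conjecture for A-theory with coefficients and finite wreath products.

`BT` is the type of the finite binary trees with a nontrivial group at each leaf. `t.grp` is the free
product of the groups at the leaves of `t`, and `t.factors` is the set of its free factors which belong
to the vertices of `t`: the free product of the groups at the leaves above a vertex. `HAut t` is the
group of the automorphisms of the free product which map each of these free factors onto a conjugate
of itself (with a conjugating element which may depend on the factor). `Holo A` is the holomorph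
`A ⋊ Aut A`.

For a comb `t` with leaves `A_1, ..., A_n` this is the group of the automorphisms of
`A_1 * ... * A_n` which preserve the conjugacy classes of the `A_i` and of all `A_1 * ... * A_k`
(triangular automorphisms).

Outline of the proof. By induction over the tree we show that the semidirect product of the free
product with `HAut t` is in `C` if and only if all holomorphs of the groups at the leaves are. For a
vertex with the two branches `l`, `r` the group `HAut` contains the free product of `l.grp` and `r.grp`
(the inner automorphisms) as a normal subgroup and acts on the tree on the conjugates of the two
factors. By the theorem on groups with a normal free product (the file NormalFreeProducts of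
`MP_1a2884_al`) it is in `C` if the two stabilizers are, and these are the products of
`l.grp ⋊ HAut l` with `HAut r`, and of `r.grp ⋊ HAut r` with `HAut l`.
-/

set_option autoImplicit false

namespace Pool.Agent.Results.MP_2a547c_gt.NestedFactors

open Q171.HI (BT HAut)
open Q171.OF (Holo)
open Pool.Agent.Y110.FJ (ClosedE)

/-- Let `C` be a class of groups with the closure properties `ClosedE C`, and let `BT.node l r` be a
finite binary tree (with at least two leaves) with a nontrivial group at each leaf. The group of the
automorphisms of the free product of the groups at the leaves which map each of the free factors of
the tree onto a conjugate of itself is in `C` if and only if the holomorphs of the groups at the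
leaves are in `C`. -/
theorem result (C : ∀ (G : Type) [Group G], Prop) (hC : ClosedE C) (l r : BT) :
    C (HAut (BT.node l r)) ↔ ∀ A ∈ (BT.node l r).leaves, C (Holo A.El) :=
  Q171.HI.main hC l r

end Pool.Agent.Results.MP_2a547c_gt.NestedFactors
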