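import Pool.Agent.Q27.FJT.Vrc

/-!
# MP_2a547c_gt: amalgamated products over virtually cyclic subgroups

`C` is a class of groups with the closure properties `ClosedE` (all known for the class of the
groups that satisfy the Farrell–Jones conjecture for A-theory with coefficients and finite wreath
products).
-/

set_option autoImplicit false

namespace Pool.Agent.Results.MP_2a547c_gt.VirtuallyCyclicAmalgams

open Pool.Agent.Y110.FJ
open Q27.VR Q27.FJT

theorem result (C : ∀ (G : Type) [Group G], Prop) (hC : ClosedE C) :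
    (∀ (G A' B' : Type) [Group G] [Group A'] [Group B'] (A B K : Subgroup G) (h : Amg A B K)
      (α : A →* A') (β : B →* B'), VirtuallyCyclic K → C A → C B → VRC A' → VRC B' →
      (∀ (k : G) (hk : k ∈ K), α ⟨k, h.le_left hk⟩ = 1 → k = 1) →
      (∀ (k : G) (hk : k ∈ K), β ⟨k, h.le_right hk⟩ = 1 → k = 1) → C G) ∧
    (∀ (G : Type) [Group G] (A B : Subgroup G) (a : A) (b : B), (a : G) = b →
      (∀ n : ℤ, a ^ n = 1 → n = 0) → Amg A B (Subgroup.zpowers (a : G)) →
      IsVirtualRetract (Subgroup.zpowers a) → IsVirtualRetract (Subgroup.zpowers b) →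
      C A → C B → C G) ∧
    (∀ (G : Type) [Group G] (A B K : Subgroup G), Amg A B K → VirtuallyCyclic K →
      C A → C B → VRC A → VRC B → C G ∧ VRC G) := by
  refine ⟨?_, ?_, ?_⟩
  · intro G A' B' _ _ _ A B K h α β hK hA hB hA' hB' hα hβ
    exact amg_mem hC h hA hB hK α β hA' hB' hα hβ
  · intro G _ A B a b hab hz h hra hrb hA hB
    have hzb : ∀ n : ℤ, b ^ n = 1 → n = 0 := by
      intro n hn
      apply hz n
      apply Subtype.ext
      have h1 : (b : G) ^ n = 1 := by
        rw [← Subgroup.coe_zpow, hn, Subgroup.coe_one]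
      rw [Subgroup.coe_zpow, hab, h1, Subgroup.coe_one]
    obtain ⟨A', _, α, hA', hα⟩ := vr_target a hz hra
    obtain ⟨B', _, β, hB', hβ⟩ := vr_target b hzb hrb
    refine amg_mem hC h hA hB ?_ α β hA' hB' ?_ ?_
    · exact ⟨⊤, inferInstance, inferInstance⟩
    · intro k hk hk1
      obtain ⟨n, rfl⟩ := hk
      have h2 := hα (a ^ n) ⟨n, rfl⟩ hk1
      exact congrArg Subtype.val h2
    · intro k hk hk1
      obtain ⟨n, rfl⟩ := hk
      have h3 : (b ^ n : B) = 1 := by
        refine hβ (b ^ n) ⟨n, rfl⟩ ?_
        rw [← hk1]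
        congr 1
        apply Subtype.ext
        show ((b ^ n : B) : G) = (a : G) ^ n
        rw [Subgroup.coe_zpow, hab]
      have h4 := congrArg Subtype.val h3
      have h5 : ((b ^ n : B) : G) = (a : G) ^ n := by
        rw [Subgroup.coe_zpow, hab]
      exact h5.symm.trans h4
  · intro G _ A B K h hK hA hB hVA hVB
    refine ⟨?_, ?_⟩
    · refine amg_mem hC h hA hB hK (MonoidHom.id _) (MonoidHom.id _) hVA hVB ?_ ?_
      · intro k hk h1
        exact congrArg Subtype.val h1
      · intro k hk h1
        exact congrArg Subtype.val h1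
    · have L : Lifts (Subgroup.inclusion h.le_left) (Subgroup.inclusion h.le_right) A.subtype
          B.subtype := by
        refine ⟨fun r => rfl, ?_⟩
        intro W _ f g hfg
        obtain ⟨F, h1, h2⟩ := h.univ W f g (fun c hc => hfg ⟨c, hc⟩)
        exact ⟨F, h1, h2⟩
      refine main L ?_ hVA hVB (Subgroup.inclusion_injective _) (Subgroup.inclusion_injective _) hK
      intro x
      have h1 : A ≤ Subgroup.closure (Set.range (io A.subtype B.subtype)) := fun a ha =>
        Subgroup.subset_closure ⟨Sum.inl ⟨a, ha⟩, rfl⟩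
      have h2 : B ≤ Subgroup.closure (Set.range (io A.subtype B.subtype)) := fun b hb =>
        Subgroup.subset_closure ⟨Sum.inr ⟨b, hb⟩, rfl⟩
      have h3 : x ∈ A ⊔ B := by
        rw [h.gen]
        trivial
      exact (sup_le h1 h2) h3

end Pool.Agent.Results.MP_2a547c_gt.VirtuallyCyclicAmalgams
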